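import Pool.Agent.Work.MP_f0c219_gt.Final
import Pool.Agent.Work.MP_f0c219_gt_h31.CoreMetric

set_option autoImplicit false

/-!
# Quasi-isometric irreducible HDG 4-manifolds, one locally CAT(0), the other not

Let `N` be the complement of the Borromean rings, with a cusp whose meridian `μ` and longitude `λ`
are orthogonal, `V = W = N̄ × S¹`, and glue `V` to `W` along the torus of that cusp by
`L_m μ = μ`, `L_m f = λ`, `L_m λ = f - m λ` (`f` the fibre). `M₁` is the gluing with `m = 0`, `M₂` the
one with `m = 1`.

* `M₁` is locally CAT(0): `L_0` is an isometry of flat tori if the fibres have length `|λ|`; hyperbolic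
  space minus an open horoball is CAT(0) with its path metric, and Reshetnyak's gluing theorem
  applies near the wall.
* `M₂` admits no locally CAT(0) metric: `λ` is a product of commutators in the group of `N`, so in
  the flat torus given by the flat torus theorem `λ_V` is orthogonal to `f_V` and `λ_W` to `f_W`; but
  `λ_W = f_V` and `f_W = λ_V + f_V`.
* The fundamental groups are quasi-isometric: a quasimorphism of the group of `N` extending the
  `λ`-coordinate of the peripheral subgroup (it counts pairs of planes in an invariant family of
  disjoint planes) twists the vertex groups, and this extends over the amalgam.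
-/

namespace Pool.Agent.Results.MP_f0c219_gt.FlipPair

open Pool.Agent.Work.MP_f0c219_gt

theorem result : ∃ M₁ M₂ : Gluing, M₁.Irreducible ∧ M₂.Irreducible ∧
    PathConnectedSpace M₁.Space ∧ PathConnectedSpace M₂.Space ∧
    (∀ (p : M₁.Space) (q : M₂.Space),
      QuasiIsometric (FundamentalGroup M₁.Space p) (FundamentalGroup M₂.Space q)) ∧
    AdmitsLocallyCAT0 M₁.Space ∧ ¬ AdmitsLocallyCAT0 M₂.Space :=
  Model.final_of_core CoreMetric.exists_good CoreMetric.exists_coreMetric

end Pool.Agent.Results.MP_f0c219_gt.FlipPair
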